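import Mathlib

/-!
# Weighted-midpoint-blocked sets have `O(k²)` points

Let `P` be a `k`-blocked set, and suppose that every point `v` of `P` carries a positive weight
`ω v` such that the weighted midpoint `(ω v • v + ω w • w) / (ω v + ω w)` of every monochromatic
pair `v ≠ w` belongs to `P` (for constant weights: `P` is midpoint-blocked).  If, for every point
`v` and colour `d`, the ratios `(ω v + ω w) / ω m`, taken over the blockers `m` of colour `d` of
the pairs `v, w`, take at most `L` values, then every colour class has at most `1 + (k - 1) L`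
points, so `P` has at most `k (1 + (k - 1) L)` points.  For midpoint-blocked sets `L = 1` and the
bound is `k²`.
-/

set_option autoImplicit false

namespace Pool.Agent.Results.MP_70b73c_co.WeightedMidpoint

open Finset

/-- `P` is `k`-blocked, as witnessed by the colouring `c`: two distinct points of `P` have the same
colour if and only if the open segment between them contains a point of `P`. -/
def IsBlocked (k : ℕ) (P : Finset (ℝ × ℝ)) (c : ℝ × ℝ → Fin k) : Prop :=
  ∀ v ∈ P, ∀ w ∈ P, v ≠ w → (c v = c w ↔ ∃ x ∈ P, x ∈ openSegment ℝ v w)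

/-- The weighted midpoint of `v` and `w` for the weight function `ω`. -/
noncomputable def wmid (ω : ℝ × ℝ → ℝ) (v w : ℝ × ℝ) : ℝ × ℝ :=
  (ω v / (ω v + ω w)) • v + (ω w / (ω v + ω w)) • w

/-- The scaling factor of the blocker of `v` and `w`: the total weight of `v` and `w` divided by
the weight of their weighted midpoint. -/
noncomputable def scal (ω : ℝ × ℝ → ℝ) (v w : ℝ × ℝ) : ℝ := (ω v + ω w) / ω (wmid ω v w)

lemma lineMap_openSegment {v w : ℝ × ℝ} {a b s : ℝ} (ha : a < s) (hb : s < b) :
    AffineMap.lineMap (k := ℝ) v w s ∈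
      openSegment ℝ (AffineMap.lineMap (k := ℝ) v w a) (AffineMap.lineMap (k := ℝ) v w b) := by
  rw [← image_openSegment]
  refine ⟨s, ?_, rfl⟩
  rw [openSegment_eq_Ioo (ha.trans hb)]
  exact ⟨ha, hb⟩

lemma exists_of_mem_openSegment {v w x : ℝ × ℝ} (hx : x ∈ openSegment ℝ v w) :
    ∃ s : ℝ, 0 < s ∧ s < 1 ∧ x = AffineMap.lineMap (k := ℝ) v w s := by
  have h : x ∈ openSegment ℝ (AffineMap.lineMap (k := ℝ) v w (0 : ℝ))
      (AffineMap.lineMap (k := ℝ) v w (1 : ℝ)) := by simpa using hx
  rw [← image_openSegment, openSegment_eq_Ioo zero_lt_one] at h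
  obtain ⟨s, hs, rfl⟩ := h
  exact ⟨s, hs.1, hs.2, rfl⟩

/-- No three collinear points of a blocked set have the same colour. -/
lemma blocker_color_ne {k : ℕ} {P : Finset (ℝ × ℝ)} {c : ℝ × ℝ → Fin k} (h : IsBlocked k P c)
    {v w m : ℝ × ℝ} (hv : v ∈ P) (hw : w ∈ P) (hm : m ∈ P) (hvw : v ≠ w)
    (hmid : m ∈ openSegment ℝ v w) : c m ≠ c v := by
  classical
  intro hc
  obtain ⟨t, ht0, ht1, rfl⟩ := exists_of_mem_openSegment hmid
  set p : ℝ → ℝ × ℝ := fun s => AffineMap.lineMap (k := ℝ) v w s with hp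
  have hinj : Function.Injective p := AffineMap.lineMap_injective ℝ hvw
  have hp0 : p 0 = v := by simp [hp]
  have hp1 : p 1 = w := by simp [hp]
  have hcvw : c v = c w := (h v hv w hw hvw).2 ⟨_, hm, hmid⟩
  have hvm : v ≠ p t := by
    intro e
    rw [← hp0] at e
    exact ht0.ne (hinj e)
  -- the parameters of the points of `P` strictly between `v` and `p t`
  obtain ⟨x, hxP, hx⟩ := (h v hv (p t) hm hvm).1 hc.symm
  have hparam : ∀ y : ℝ × ℝ, y ∈ openSegment ℝ v (p t) → ∃ s, 0 < s ∧ s < t ∧ y = p s := by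
    intro y hy
    have hy' : y ∈ openSegment ℝ (AffineMap.lineMap (k := ℝ) v w (0 : ℝ))
      (AffineMap.lineMap (k := ℝ) v w t) := by simpa [hp] using hy
    rw [← image_openSegment, openSegment_eq_Ioo ht0] at hy'
    obtain ⟨s, hs, rfl⟩ := hy'
    exact ⟨s, hs.1, hs.2, rfl⟩
  set S : Finset (ℝ × ℝ) := P.filter (fun y => y ∈ openSegment ℝ v (p t)) with hS
  have hSne : S.Nonempty := ⟨x, by simp [hS, hxP, hx]⟩
  obtain ⟨y, hyS, hymin⟩ := S.exists_min_image (fun y => dist y (p t)) hSne
  have hyP : y ∈ P := (Finset.mem_filter.1 hyS).1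
  obtain ⟨s, hs0, hst, rfl⟩ := hparam y (Finset.mem_filter.1 hyS).2
  -- `p s` and `p t` are visible
  have hne : p s ≠ p t := fun e => hst.ne (hinj e)
  have hvis : c (p s) ≠ c (p t) := by
    intro hcc
    obtain ⟨z, hzP, hz⟩ := (h (p s) hyP (p t) hm hne).1 hcc
    have hz' : z ∈ openSegment ℝ (AffineMap.lineMap (k := ℝ) v w s)
      (AffineMap.lineMap (k := ℝ) v w t) := hz
    rw [← image_openSegment, openSegment_eq_Ioo hst] at hz'
    obtain ⟨r, hr, rfl⟩ := hz'
    have hr0 : 0 < r := hs0.trans hr.1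
    have hzS : p r ∈ S := by
      refine Finset.mem_filter.2 ⟨hzP, ?_⟩
      have := lineMap_openSegment (v := v) (w := w) hr0 hr.2
      simpa [hp] using this
    have hle := hymin (p r) hzS
    have e1 : dist (p s) (p t) = (t - s) * dist v w := by
      have := dist_lineMap_lineMap (𝕜 := ℝ) v w s t
      simp only [hp]
      rw [this, Real.dist_eq, abs_sub_comm, abs_of_pos (sub_pos.2 hst)]
    have e2 : dist (p r) (p t) = (t - r) * dist v w := by
      have := dist_lineMap_lineMap (𝕜 := ℝ) v w r t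
      simp only [hp]
      rw [this, Real.dist_eq, abs_sub_comm, abs_of_pos (sub_pos.2 hr.2)]
    have hd : 0 < dist v w := dist_pos.2 hvw
    have hle' : (t - s) * dist v w ≤ (t - r) * dist v w := by
      simpa [e1, e2] using hle
    have := le_of_mul_le_mul_right hle' hd
    linarith [hr.1]
  -- `p s` and `w` are blocked by `p t`
  have hsw : p s ≠ w := by
    intro e
    rw [← hp1] at e
    exact (hst.trans ht1).ne (hinj e)
  have hblk : c (p s) = c w := by
    refine (h (p s) hyP w hw hsw).2 ⟨p t, hm, ?_⟩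
    have := lineMap_openSegment (v := v) (w := w) hst ht1
    simpa [hp] using this
  exact hvis (by rw [hblk, ← hcvw]; exact hc.symm)

lemma wmid_mem_openSegment {ω : ℝ × ℝ → ℝ} {v w : ℝ × ℝ} (hv : 0 < ω v) (hw : 0 < ω w) :
    wmid ω v w ∈ openSegment ℝ v w := by
  refine ⟨ω v / (ω v + ω w), ω w / (ω v + ω w), by positivity, by positivity, ?_, rfl⟩
  field_simp

/-- The key geometric step: blockers of two monochromatic pairs sharing the point `v`, if they have
the same colour, have different scaling factors. -/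
lemma key {k : ℕ} {P : Finset (ℝ × ℝ)} {c : ℝ × ℝ → Fin k} (h : IsBlocked k P c)
    {ω : ℝ × ℝ → ℝ} (hω : ∀ v ∈ P, 0 < ω v)
    (hmid : ∀ v ∈ P, ∀ w ∈ P, v ≠ w → c v = c w → wmid ω v w ∈ P)
    {v a b : ℝ × ℝ} (hv : v ∈ P) (ha : a ∈ P) (hb : b ∈ P) (hva : a ≠ v) (hvb : b ≠ v)
    (hca : c a = c v) (hcb : c b = c v) (hcol : c (wmid ω v a) = c (wmid ω v b))
    (hsc : scal ω v a = scal ω v b) : a = b := by
  by_contra hab
  have hmaP := hmid v hv a ha hva.symm hca.symm
  have hmbP := hmid v hv b hb hvb.symm hcb.symm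
  have hnP := hmid a ha b hb hab (hca.trans hcb.symm)
  have pv := hω v hv
  have pa := hω a ha
  have pb := hω b hb
  have pma := hω _ hmaP
  have pmb := hω _ hmbP
  have hnseg := wmid_mem_openSegment pa pb
  have hncol : c (wmid ω a b) ≠ c a := blocker_color_ne h ha hb hnP hab hnseg
  -- the weighted midpoint of the two blockers
  have hne : wmid ω v a ≠ wmid ω v b := by
    intro e
    have hs2 : (ω v + ω a) / ω (wmid ω v b) = (ω v + ω b) / ω (wmid ω v b) := by
      have := hsc
      unfold scal at this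
      rw [e] at this
      exact this
    have hab' : ω a = ω b := by
      have := (div_left_inj' pmb.ne').1 hs2
      linarith
    apply hab
    have e1 : (ω a / (ω v + ω a)) • a = (ω a / (ω v + ω a)) • b := by
      have := e
      unfold wmid at this
      rw [← hab'] at this
      exact add_left_cancel this
    have hpos : 0 < ω a / (ω v + ω a) := by positivity
    exact smul_right_injective _ hpos.ne' e1
  have hqP := hmid _ hmaP _ hmbP hne hcol
  -- the point `q` lies on the segment from `v` to `n`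
  have hlam : ∃ l : ℝ, 0 < l ∧ ω (wmid ω v a) = l * (ω v + ω a) ∧
      ω (wmid ω v b) = l * (ω v + ω b) := by
    refine ⟨ω (wmid ω v a) / (ω v + ω a), by positivity, by field_simp, ?_⟩
    unfold scal at hsc
    field_simp at hsc ⊢
    linarith
  obtain ⟨l, hl, e1, e2⟩ := hlam
  have hq : wmid ω (wmid ω v a) (wmid ω v b) =
      (2 * ω v / (2 * ω v + ω a + ω b)) • v +
        ((ω a + ω b) / (2 * ω v + ω a + ω b)) • wmid ω a b := by
    have hs : ω (wmid ω v a) + ω (wmid ω v b) = l * (2 * ω v + ω a + ω b) := by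
      rw [e1, e2]; ring
    have f1 : ω (wmid ω v a) / (ω (wmid ω v a) + ω (wmid ω v b)) =
        (ω v + ω a) / (2 * ω v + ω a + ω b) := by
      rw [hs, e1]
      rw [mul_div_mul_left _ _ hl.ne']
    have f2 : ω (wmid ω v b) / (ω (wmid ω v a) + ω (wmid ω v b)) =
        (ω v + ω b) / (2 * ω v + ω a + ω b) := by
      rw [hs, e2]
      rw [mul_div_mul_left _ _ hl.ne']
    have f0 : wmid ω (wmid ω v a) (wmid ω v b) =
        (ω (wmid ω v a) / (ω (wmid ω v a) + ω (wmid ω v b))) • wmid ω v a +
        (ω (wmid ω v b) / (ω (wmid ω v a) + ω (wmid ω v b))) • wmid ω v b := rfl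
    rw [f0, f1, f2]
    unfold wmid
    ext
    · simp only [Prod.fst_add, Prod.smul_fst, smul_eq_mul]
      field_simp
      ring
    · simp only [Prod.snd_add, Prod.smul_snd, smul_eq_mul]
      field_simp
      ring
  have hqseg : wmid ω (wmid ω v a) (wmid ω v b) ∈ openSegment ℝ v (wmid ω a b) := by
    rw [hq]
    refine ⟨_, _, by positivity, by positivity, ?_, rfl⟩
    field_simp
    ring
  by_cases hvn : v = wmid ω a b
  · exact hncol (by rw [← hvn]; exact hca.symm)
  · have : c v = c (wmid ω a b) := (h v hv _ hnP hvn).2 ⟨_, hqP, hqseg⟩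
    exact hncol (by rw [← this]; exact hca.symm)

/-- **Weighted-midpoint-blocked sets have `O(k²)` points.** -/
theorem result (k L : ℕ) (P : Finset (ℝ × ℝ)) (c : ℝ × ℝ → Fin k) (h : IsBlocked k P c)
    (ω : ℝ × ℝ → ℝ) (hω : ∀ v ∈ P, 0 < ω v)
    (hmid : ∀ v ∈ P, ∀ w ∈ P, v ≠ w → c v = c w → wmid ω v w ∈ P)
    (hL : ∀ v ∈ P, ∀ d : Fin k,
      ({x : ℝ | ∃ w ∈ P, w ≠ v ∧ c w = c v ∧ c (wmid ω v w) = d ∧ scal ω v w = x}).encard ≤ L) :
    P.card ≤ k * (1 + (k - 1) * L) := by
  classical
  -- every colour class has at most `1 + (k - 1) * L` points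
  have hclass : ∀ e : Fin k, (P.filter (fun w => c w = e)).card ≤ 1 + (k - 1) * L := by
    intro e
    rcases (P.filter (fun w => c w = e)).eq_empty_or_nonempty with h0 | ⟨v, hv⟩
    · rw [h0]; simp
    · obtain ⟨hvP, hve⟩ := Finset.mem_filter.1 hv
      set S : Finset (ℝ × ℝ) := (P.filter (fun w => c w = e)).erase v with hS
      have hSmem : ∀ w ∈ S, w ≠ v ∧ w ∈ P ∧ c w = c v := by
        intro w hw
        obtain ⟨h1, h2⟩ := Finset.mem_erase.1 hw
        obtain ⟨h3, h4⟩ := Finset.mem_filter.1 h2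
        exact ⟨h1, h3, h4.trans hve.symm⟩
      have hcardS : (P.filter (fun w => c w = e)).card = 1 + S.card := by
        rw [hS, Finset.card_erase_of_mem hv]
        have : 0 < (P.filter (fun w => c w = e)).card := Finset.card_pos.2 ⟨v, hv⟩
        omega
      rw [hcardS]
      refine Nat.add_le_add_left ?_ 1
      -- fibres over the colours of the blockers
      have hfib : ∀ d ∈ (Finset.univ : Finset (Fin k)).erase e,
          (S.filter (fun w => c (wmid ω v w) = d)).card ≤ L := by
        intro d _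
        have hinj : Set.InjOn (fun w => scal ω v w)
            ((S.filter (fun w => c (wmid ω v w) = d) : Finset (ℝ × ℝ)) : Set (ℝ × ℝ)) := by
          intro a ha b hb hab
          rw [Finset.mem_coe, Finset.mem_filter] at ha hb
          obtain ⟨a1, a2, a3⟩ := hSmem a ha.1
          obtain ⟨b1, b2, b3⟩ := hSmem b hb.1
          exact key h hω hmid hvP a2 b2 a1 b1 a3 b3 (ha.2.trans hb.2.symm) hab
        have hc1 : ((S.filter (fun w => c (wmid ω v w) = d)).card : ℕ∞) =
            (((fun w => scal ω v w) ''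
              ((S.filter (fun w => c (wmid ω v w) = d) : Finset (ℝ × ℝ)) : Set (ℝ × ℝ))).encard) := by
          rw [hinj.encard_image, Set.encard_coe_eq_coe_finsetCard]
        have hsub : ((fun w => scal ω v w) ''
              ((S.filter (fun w => c (wmid ω v w) = d) : Finset (ℝ × ℝ)) : Set (ℝ × ℝ))) ⊆
            {x : ℝ | ∃ w ∈ P, w ≠ v ∧ c w = c v ∧ c (wmid ω v w) = d ∧ scal ω v w = x} := by
          rintro x ⟨w, hw, rfl⟩
          rw [Finset.mem_coe, Finset.mem_filter] at hw
          obtain ⟨w1, w2, w3⟩ := hSmem w hw.1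
          exact ⟨w, w2, w1, w3, hw.2, rfl⟩
        have hle := (Set.encard_le_encard hsub).trans (hL v hvP d)
        rw [← hc1] at hle
        exact_mod_cast hle
      have hmaps : ∀ w ∈ S, c (wmid ω v w) ∈ (Finset.univ : Finset (Fin k)).erase e := by
        intro w hw
        obtain ⟨w1, w2, w3⟩ := hSmem w hw
        refine Finset.mem_erase.2 ⟨?_, Finset.mem_univ _⟩
        rw [← hve]
        exact blocker_color_ne h hvP w2 (hmid v hvP w w2 w1.symm w3.symm) w1.symm
          (wmid_mem_openSegment (hω v hvP) (hω w w2))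
      have := Finset.card_le_mul_card_image_of_maps_to hmaps L hfib
      have hcard : ((Finset.univ : Finset (Fin k)).erase e).card = k - 1 := by
        rw [Finset.card_erase_of_mem (Finset.mem_univ _), Finset.card_univ, Fintype.card_fin]
      rw [hcard] at this
      rw [Nat.mul_comm]
      exact this
  have hsum := Finset.card_eq_sum_card_fiberwise (s := P) (t := (Finset.univ : Finset (Fin k)))
    (f := c) (fun x _ => Finset.mem_coe.2 (Finset.mem_univ _))
  rw [hsum]
  calc ∑ e : Fin k, (P.filter (fun w => c w = e)).card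
      ≤ ∑ _e : Fin k, (1 + (k - 1) * L) := Finset.sum_le_sum (fun e _ => hclass e)
    _ = k * (1 + (k - 1) * L) := by simp

/-- The special case of midpoint-blocked sets: at most `k²` points. -/
theorem midpoint_case (k : ℕ) (P : Finset (ℝ × ℝ)) (c : ℝ × ℝ → Fin k) (h : IsBlocked k P c)
    (hmid : ∀ v ∈ P, ∀ w ∈ P, v ≠ w → c v = c w → midpoint ℝ v w ∈ P) :
    P.card ≤ k ^ 2 := by
  have hw : ∀ v w : ℝ × ℝ, wmid (fun _ => 1) v w = midpoint ℝ v w := by
    intro v w
    unfold wmid
    rw [midpoint_eq_smul_add, smul_add]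
    norm_num
  have := result k 1 P c h (fun _ => 1) (fun _ _ => one_pos)
    (fun v hv w hw' hne hc => by rw [hw]; exact hmid v hv w hw' hne hc) (by
      intro v _ d
      refine le_trans (Set.encard_le_encard (t := {2}) ?_) (by simp)
      rintro x ⟨w, _, _, _, _, rfl⟩
      simp [scal]; norm_num)
  rcases Nat.eq_zero_or_pos k with rfl | hk
  · simpa using this
  · calc P.card ≤ k * (1 + (k - 1) * 1) := this
      _ = k ^ 2 := by rw [mul_one, Nat.add_sub_cancel' hk, sq]

end Pool.Agent.Results.MP_70b73c_co.WeightedMidpoint
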